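import Mathlib

/-!
# The last stretch of a gcd-subtraction recursion

`a n = a (n-1) - gcd (a (n-1)) (M n)`; the quantity `a n + n` is constant as long as the gcd is
`1`, and drops by `d - 1` when the gcd is `d`. If every prime `q` which can divide a future gcd
does so within `W q` steps, then the time spent before the last nontrivial gcd is bounded by the
total drop, and after it no nontrivial gcd occurs.
-/

set_option autoImplicit false

namespace Pool.Agent.R353.Gcd

theorem tail_step (L K c s g : ℕ) (a M : ℕ → ℤ) (W : ℕ → ℕ) (Bad : ℤ → ℕ → Prop)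
    (hrec : ∀ n, s < n → n ≤ g → a n = a (n - 1) - (Int.gcd (a (n - 1)) (M n) : ℤ))
    (hpos : ∀ n, s ≤ n → n < g → 0 < a n)
    (hev : ∀ (A : ℤ) (n q : ℕ), q.Prime → (q : ℤ) ∣ A - n → (q : ℤ) ∣ M n → Bad A q)
    (hwait : ∀ (A : ℤ) (q n0 : ℕ), q.Prime → Bad A q →
      ∃ n : ℕ, n0 < n ∧ n ≤ n0 + W q ∧ (q : ℤ) ∣ A - n ∧ (q : ℤ) ∣ M n)
    (r : ℤ) (hpar : ∀ A, Bad A 2 ↔ (2 : ℤ) ∣ A - r)
    (hW : ∀ q, q.Prime → q ≠ 2 → (L : ℤ) * W q ≤ K * (q - 1)) (hW2 : (L : ℤ) * W 2 ≤ K + c) :
    ∀ n, s ≤ n → n ≤ g → ∃ n1, s ≤ n1 ∧ n1 ≤ n ∧ (∀ j, n1 ≤ j → j ≤ n → a j + j = a n + n) ∧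
      (∀ j, n1 < j → j ≤ n → Int.gcd (a (j - 1)) (M j) = 1) ∧
      ((L : ℤ) * (n1 - s) + K * (a n + n) ≤ K * (a s + s) ∨
        (¬ Bad (a n + n + 1) 2 ∧ (L : ℤ) * (n1 - s) + K * (a n + n) ≤ K * (a s + s) + c)) := by
  intro n hn
  induction n, hn using Nat.le_induction with
  | base =>
    intro _
    refine ⟨s, le_rfl, le_rfl, ?_, ?_, Or.inl ?_⟩
    · intro j h1 h2
      rw [le_antisymm h2 h1]
    · intro j h1 h2; omega
    · rw [sub_self, mul_zero, zero_add]
  | succ n hn ih =>
    intro hg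
    obtain ⟨n1, h1, h2, h3, h4, h5⟩ := ih (by omega)
    have hpn : 0 < a n := hpos n hn (by omega)
    have hr : a (n + 1) = a n - (Int.gcd (a n) (M (n + 1)) : ℤ) := by
      have := hrec (n + 1) (by omega) hg
      simpa using this
    obtain ⟨d, hd⟩ : ∃ d : ℕ, Int.gcd (a n) (M (n + 1)) = d := ⟨_, rfl⟩
    have hd1 : 1 ≤ d := by
      rw [← hd]
      exact Nat.pos_of_ne_zero (fun h => by
        have := (Int.gcd_eq_zero_iff.mp h).1
        omega)
    have hda : (d : ℤ) ∣ a n := by rw [← hd]; exact Int.gcd_dvd_left _ _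
    have hdM : (d : ℤ) ∣ M (n + 1) := by rw [← hd]; exact Int.gcd_dvd_right _ _
    rw [hd] at hr
    have hsum : a (n + 1) + ((n + 1 : ℕ) : ℤ) = a n + n - (d - 1) := by
      rw [hr]; push_cast; ring
    rcases Nat.eq_or_lt_of_le hd1 with hd' | hd'
    · -- no event
      have hs : a (n + 1) + ((n + 1 : ℕ) : ℤ) = a n + n := by
        rw [hsum, ← hd']; push_cast; ring
      refine ⟨n1, h1, by omega, ?_, ?_, ?_⟩
      · intro j hj1 hj2
        rcases Nat.lt_or_ge n j with h | h
        · have : j = n + 1 := by omega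
          rw [this]
        · rw [hs]; exact h3 j hj1 h
      · intro j hj1 hj2
        rcases Nat.lt_or_ge n j with h | h
        · have : j = n + 1 := by omega
          rw [this]
          simp only [Nat.add_sub_cancel]
          rw [hd, ← hd']
        · exact h4 j hj1 h
      · rw [hs]; exact h5
    · -- an event
      have key : ∀ q : ℕ, q.Prime → q ∣ d → Bad (a n + n + 1) q ∧ n + 1 ≤ n1 + W q := by
        intro q hq hqd
        have hq1 : (q : ℤ) ∣ a n := (Int.natCast_dvd_natCast.mpr hqd).trans hda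
        have hq2 : (q : ℤ) ∣ M (n + 1) := (Int.natCast_dvd_natCast.mpr hqd).trans hdM
        have hB : Bad (a n + n + 1) q := by
          refine hev _ (n + 1) q hq ?_ hq2
          have : a n + n + 1 - ((n + 1 : ℕ) : ℤ) = a n := by push_cast; ring
          rw [this]; exact hq1
        refine ⟨hB, ?_⟩
        obtain ⟨m, hm1, hm2, hm3, hm4⟩ := hwait _ q n1 hq hB
        by_contra hcon
        have hmn : m ≤ n := by omega
        have h6 := h3 (m - 1) (by omega) (by omega)
        have h7 := h4 m hm1 hmn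
        have h8 : a (m - 1) = a n + n + 1 - m := by
          have : ((m - 1 : ℕ) : ℤ) = m - 1 := by
            rw [Nat.cast_sub (by omega)]; simp
          rw [this] at h6
          linarith
        have h9 : (q : ℤ) ∣ ((Int.gcd (a (m - 1)) (M m) : ℕ) : ℤ) :=
          Int.dvd_coe_gcd (h8 ▸ hm3) hm4
        rw [h7] at h9
        have := Int.natCast_dvd_natCast.mp h9
        exact hq.one_lt.ne' (Nat.dvd_one.mp this)
      refine ⟨n + 1, by omega, le_rfl, ?_, ?_, ?_⟩
      · intro j hj1 hj2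
        rw [le_antisymm hj2 hj1]
      · intro j hj1 hj2; omega
      · rw [hsum]
        by_cases h2d : 2 ∣ d
        · obtain ⟨hB, hw⟩ := key 2 Nat.prime_two h2d
          rcases h5 with h5 | h5
          · right
            constructor
            · rw [hpar]
              rw [hpar] at hB
              intro hcon
              have : (2 : ℤ) ∣ d := by exact_mod_cast h2d
              omega
            · have e1 : (L : ℤ) * ((n + 1 : ℕ) - n1) ≤ L * W 2 := by
                refine mul_le_mul_of_nonneg_left ?_ (by positivity)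
                have : ((n + 1 : ℕ) : ℤ) ≤ n1 + W 2 := by exact_mod_cast hw
                linarith
              have e2 : (K : ℤ) * 1 ≤ K * ((d : ℤ) - 1) := by
                refine mul_le_mul_of_nonneg_left ?_ (by positivity)
                have : (2 : ℤ) ≤ d := by exact_mod_cast hd'
                linarith
              nlinarith
          · exact absurd hB h5.1
        · obtain ⟨q, hq, hqd⟩ := Nat.exists_prime_and_dvd (by omega : d ≠ 1)
          have hq2 : q ≠ 2 := by rintro rfl; exact h2d hqd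
          obtain ⟨_, hw⟩ := key q hq hqd
          have e1 : (L : ℤ) * ((n + 1 : ℕ) - n1) ≤ L * W q := by
            refine mul_le_mul_of_nonneg_left ?_ (by positivity)
            have : ((n + 1 : ℕ) : ℤ) ≤ n1 + W q := by exact_mod_cast hw
            linarith
          have e2 : (K : ℤ) * ((q : ℤ) - 1) ≤ K * ((d : ℤ) - 1) := by
            refine mul_le_mul_of_nonneg_left ?_ (by positivity)
            have : (q : ℤ) ≤ d := by exact_mod_cast Nat.le_of_dvd (by omega) hqd
            linarith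
          have e3 := hW q hq hq2
          have e4 : (L : ℤ) * (((n + 1 : ℕ) : ℤ) - s) + K * (a n + n - (d - 1)) ≤
              L * (n1 - s) + K * (a n + n) := by nlinarith
          rcases h5 with h5 | h5
          · left; exact e4.trans h5
          · right
            refine ⟨?_, e4.trans h5.2⟩
            rw [hpar]
            have h6 := h5.1
            rw [hpar] at h6
            intro hcon
            apply h6
            have : ¬ (2 : ℤ) ∣ d := by
              intro h; exact h2d (by exact_mod_cast h)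
            omega

/-- The last stretch: there is a time `n1` after which every gcd is `1`, and the time before `n1`
is bounded by the total drop of `a n + n`. -/
theorem tail (L K c s g : ℕ) (hsg : s ≤ g) (a M : ℕ → ℤ) (W : ℕ → ℕ) (Bad : ℤ → ℕ → Prop)
    (hrec : ∀ n, s < n → n ≤ g → a n = a (n - 1) - (Int.gcd (a (n - 1)) (M n) : ℤ))
    (hpos : ∀ n, s ≤ n → n < g → 0 < a n) (hz : a g = 0)
    (hev : ∀ (A : ℤ) (n q : ℕ), q.Prime → (q : ℤ) ∣ A - n → (q : ℤ) ∣ M n → Bad A q)
    (hwait : ∀ (A : ℤ) (q n0 : ℕ), q.Prime → Bad A q →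
      ∃ n : ℕ, n0 < n ∧ n ≤ n0 + W q ∧ (q : ℤ) ∣ A - n ∧ (q : ℤ) ∣ M n)
    (r : ℤ) (hpar : ∀ A, Bad A 2 ↔ (2 : ℤ) ∣ A - r)
    (hW : ∀ q, q.Prime → q ≠ 2 → (L : ℤ) * W q ≤ K * (q - 1)) (hW2 : (L : ℤ) * W 2 ≤ K + c) :
    ∃ n1, s ≤ n1 ∧ n1 ≤ g ∧
      (∀ j, n1 < j → j ≤ g → ∀ q : ℕ, q.Prime → (q : ℤ) ∣ (g : ℤ) + 1 - j → ¬ (q : ℤ) ∣ M j) ∧
      (L : ℤ) * (n1 - s) + K * g ≤ K * (a s + s) + c := by
  obtain ⟨n1, h1, h2, h3, h4, h5⟩ := tail_step L K c s g a M W Bad hrec hpos hev hwait r hpar hW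
    hW2 g hsg le_rfl
  refine ⟨n1, h1, h2, ?_, ?_⟩
  · intro j hj1 hj2 q hq hq1 hq2
    have h6 := h3 (j - 1) (by omega) (by omega)
    have h7 := h4 j hj1 hj2
    rw [hz] at h6
    have h8 : a (j - 1) = (g : ℤ) + 1 - j := by
      have : ((j - 1 : ℕ) : ℤ) = j - 1 := by
        rw [Nat.cast_sub (by omega)]; simp
      rw [this] at h6
      linarith
    have h9 : (q : ℤ) ∣ ((Int.gcd (a (j - 1)) (M j) : ℕ) : ℤ) :=
      Int.dvd_coe_gcd (h8 ▸ hq1) hq2
    rw [h7] at h9
    have := Int.natCast_dvd_natCast.mp h9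
    exact hq.one_lt.ne' (Nat.dvd_one.mp this)
  · rw [hz, zero_add] at h5
    rcases h5 with h5 | h5
    · have : (0 : ℤ) ≤ c := by positivity
      linarith
    · exact h5.2

/-- a window of length `q` contains a number congruent to `A` modulo `q` -/
theorem win (A : ℤ) (q n0 : ℕ) (hq : 0 < q) : ∃ n : ℕ, n0 < n ∧ n ≤ n0 + q ∧ (q : ℤ) ∣ A - n := by
  have hq' : (0 : ℤ) < q := by exact_mod_cast hq
  have h1 := Int.emod_nonneg (A - n0 - 1) hq'.ne'
  have h2 := Int.emod_lt_of_pos (A - n0 - 1) hq'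
  obtain ⟨t, ht⟩ : ∃ t : ℕ, (t : ℤ) = (A - n0 - 1) % q := ⟨((A - n0 - 1) % q).toNat, by omega⟩
  refine ⟨n0 + 1 + t, by omega, by omega, ?_⟩
  have : A - ((n0 + 1 + t : ℕ) : ℤ) = (A - n0 - 1) - (A - n0 - 1) % q := by
    push_cast; rw [ht]; ring
  rw [this]
  exact Int.dvd_self_sub_emod

/-- the recursion reaches `0`, and is positive before -/
theorem first_zero (s : ℕ) (a M : ℕ → ℤ) (h0 : 0 < a s)
    (hrec : ∀ n, s ≤ n → 0 < a n → a (n + 1) = a n - (Int.gcd (a n) (M (n + 1)) : ℤ)) :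
    ∃ g, s < g ∧ a g = 0 ∧ (∀ n, s ≤ n → n < g → 0 < a n) := by
  classical
  have hstep : ∀ n, s ≤ n → 0 < a n → 0 ≤ a (n + 1) ∧ a (n + 1) + (n + 1 : ℕ) ≤ a n + n := by
    intro n hn hp
    have h1 := hrec n hn hp
    have h2 : (Int.gcd (a n) (M (n + 1)) : ℤ) ≤ a n :=
      Int.le_of_dvd hp (Int.gcd_dvd_left _ _)
    have h3 : 0 < Int.gcd (a n) (M (n + 1)) := Nat.pos_of_ne_zero (fun h => by
      have := (Int.gcd_eq_zero_iff.mp h).1
      omega)
    have h4 : (1 : ℤ) ≤ (Int.gcd (a n) (M (n + 1)) : ℤ) := by exact_mod_cast h3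
    push_cast
    constructor <;> linarith
  have hex : ∃ g, s < g ∧ a g = 0 := by
    by_contra hcon
    push Not at hcon
    have h : ∀ n, s ≤ n → 0 < a n ∧ a n + n ≤ a s + s := by
      intro n hn
      induction n, hn using Nat.le_induction with
      | base => exact ⟨h0, le_rfl⟩
      | succ n hn ih =>
        obtain ⟨h5, h6⟩ := hstep n hn ih.1
        refine ⟨lt_of_le_of_ne h5 (Ne.symm (hcon (n + 1) (by omega))), h6.trans ih.2⟩
    have h7 := h (s + (a s).toNat) (by omega)
    have h8 : (((a s).toNat : ℕ) : ℤ) = a s := Int.toNat_of_nonneg h0.le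
    push_cast at h7
    rw [h8] at h7
    linarith [h7.1, h7.2]
  refine ⟨Nat.find hex, (Nat.find_spec hex).1, (Nat.find_spec hex).2, ?_⟩
  intro n hn
  induction n, hn using Nat.le_induction with
  | base => intro _; exact h0
  | succ n hn ih =>
    intro hlt
    have h9 := ih (by omega)
    obtain ⟨h5, _⟩ := hstep n hn h9
    refine lt_of_le_of_ne h5 (Ne.symm ?_)
    intro h10
    exact Nat.find_min hex hlt ⟨by omega, h10⟩

end Pool.Agent.R353.Gcd
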